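import Mathlib

namespace Pool.Agent.Results.MP_4beb09_co.ExactValue

open Finset

/-- The sets `F 0, …, F (t-1)` are disjointly representable: there are elements `x i` such that
`x i` belongs to `F j` exactly when `i = j`. -/
def DisjointlyRepresentable {n t : ℕ} (F : Fin t → Finset (Fin n)) : Prop :=
  ∃ x : Fin t → Fin n, ∀ i j, x i ∈ F j ↔ i = j

/-- Every family of at least `r` subsets of `[n]` contains `t` distinct disjointly
representable members. -/
def Forces (n t r : ℕ) : Prop :=
  ∀ 𝓕 : Finset (Finset (Fin n)), r ≤ 𝓕.card →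
    ∃ F : Fin t → Finset (Fin n), Function.Injective F ∧ (∀ i, F i ∈ 𝓕) ∧
      DisjointlyRepresentable F

/-- auxiliary involution: keep the least element, complement above it -/
def flip {n : ℕ} (S : Finset (Fin n)) : Finset (Fin n) :=
  univ.filter (fun x => (x ∈ S ∧ ∀ y ∈ S, x ≤ y) ∨ (x ∉ S ∧ ∃ y ∈ S, y < x))

lemma flip_flip {n : ℕ} (S : Finset (Fin n)) : flip (flip S) = S := by
  classical
  rcases S.eq_empty_or_nonempty with rfl | hS
  · ext x; simp [flip]
  · obtain ⟨m, hm, hmin⟩ := Finset.exists_min_image S id hS
    simp only [id] at hmin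
    have hf : ∀ x, x ∈ flip S ↔ (x = m ∨ (m < x ∧ x ∉ S)) := by
      intro x
      simp only [flip, mem_filter, mem_univ, true_and]
      constructor
      · rintro (⟨h1, h2⟩ | ⟨h1, y, h2, h3⟩)
        · left; exact le_antisymm (h2 m hm) (hmin x h1)
        · right; exact ⟨lt_of_le_of_lt (hmin y h2) h3, h1⟩
      · rintro (rfl | ⟨h1, h2⟩)
        · left; exact ⟨hm, hmin⟩
        · right; exact ⟨h2, m, hm, h1⟩
    ext x
    have hgoal : x ∈ flip (flip S) ↔ ((x ∈ flip S ∧ ∀ y ∈ flip S, x ≤ y) ∨
        (x ∉ flip S ∧ ∃ y ∈ flip S, y < x)) := by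
      conv_lhs => rw [flip]
      simp only [mem_filter, mem_univ, true_and]
    rw [hgoal]
    have hmf : m ∈ flip S := (hf m).mpr (Or.inl rfl)
    have hge : ∀ y ∈ flip S, m ≤ y := by
      intro y hy
      rcases (hf y).mp hy with rfl | h
      · exact le_rfl
      · exact h.1.le
    constructor
    · rintro (⟨h1, h2⟩ | ⟨h1, y, h2, h3⟩)
      · have : x = m := le_antisymm (h2 m hmf) (hge x h1)
        rw [this]; exact hm
      · by_contra hx
        exact h1 ((hf x).mpr (Or.inr ⟨lt_of_le_of_lt (hge y h2) h3, hx⟩))
    · intro hx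
      rcases (hmin x hx).eq_or_lt with h | h
      · left
        rw [← h]
        exact ⟨hmf, hge⟩
      · right
        refine ⟨?_, m, hmf, h⟩
        intro hxf
        rcases (hf x).mp hxf with h' | h'
        · exact h.ne' h'
        · exact h'.2 hx

lemma card_small (n t : ℕ) :
    ((univ : Finset (Finset (Fin n))).filter (fun S => S.card < t)).card
      = ∑ i ∈ range t, n.choose i := by
  classical
  have h : (univ : Finset (Finset (Fin n))).filter (fun S => S.card < t)
      = (range t).biUnion (fun i => powersetCard i (univ : Finset (Fin n))) := by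
    ext S
    simp only [mem_filter, mem_univ, true_and, mem_biUnion, mem_range, mem_powersetCard,
      subset_univ]
    constructor
    · intro h; exact ⟨_, h, rfl⟩
    · rintro ⟨i, h, rfl⟩; exact h
  rw [h, card_biUnion]
  · simp
  · intro i _ j _ hij
    change Disjoint (powersetCard i (univ : Finset (Fin n))) (powersetCard j univ)
    rw [Finset.disjoint_left]
    intro S hS hS'
    rw [mem_powersetCard] at hS hS'
    exact hij (hS.2.symm.trans hS'.2)

/-- For all `n ≥ t ≥ 2` the number `r(n, t)` equals `∑_{i < t} C(n, i) + 1`. -/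
theorem result (n t : ℕ) (ht : 2 ≤ t) (_hn : t ≤ n) :
    IsLeast {r : ℕ | Forces n t r} (∑ i ∈ range t, n.choose i + 1) := by
  classical
  constructor
  · -- upper bound from the Sauer-Shelah lemma
    intro 𝓕 h𝓕
    have h1 : 𝓕.card ≤ ∑ k ∈ Iic 𝓕.vcDim, n.choose k := by
      have h := 𝓕.card_le_card_shatterer.trans 𝓕.card_shatterer_le_sum_vcDim
      rwa [Fintype.card_fin] at h
    have hvc : t ≤ 𝓕.vcDim := by
      by_contra hlt
      push Not at hlt
      have hsub : Iic 𝓕.vcDim ⊆ range t := by
        intro i hi
        rw [mem_Iic] at hi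
        rw [mem_range]
        omega
      have := sum_le_sum_of_subset (f := fun k => n.choose k) hsub
      omega
    obtain ⟨T, hT, hTc⟩ : ∃ T, 𝓕.Shatters T ∧ T.card = t := by
      have hne : 𝓕.shatterer.Nonempty := by
        have hpos : 0 < 𝓕.card := by omega
        obtain ⟨A, hA⟩ := card_pos.mp hpos
        refine ⟨∅, ?_⟩
        rw [mem_shatterer, shatters_empty]
        exact ⟨A, hA⟩
      obtain ⟨S, hS, hSeq⟩ := Finset.exists_mem_eq_sup 𝓕.shatterer hne card
      have hScard : t ≤ S.card := by
        unfold vcDim at hvc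
        rwa [hSeq] at hvc
      obtain ⟨T, hTS, hTc⟩ := exists_subset_card_eq hScard
      exact ⟨T, (mem_shatterer.mp hS).mono_right hTS, hTc⟩
    let e := T.orderIsoOfFin hTc
    have hsing : ∀ i : Fin t, ∃ u ∈ 𝓕, T ∩ u = {(e i : Fin n)} := by
      intro i
      exact hT (singleton_subset_iff.mpr (e i).2)
    choose F hF hFT using hsing
    have hrep : ∀ i j, (e i : Fin n) ∈ F j ↔ i = j := by
      intro i j
      have h1 : (e i : Fin n) ∈ F j ↔ (e i : Fin n) ∈ T ∩ F j := by
        rw [mem_inter]
        exact ⟨fun h => ⟨(e i).2, h⟩, fun h => h.2⟩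
      rw [h1, hFT j, mem_singleton]
      constructor
      · intro h
        exact e.injective (Subtype.ext h)
      · rintro rfl; rfl
    refine ⟨F, ?_, hF, fun i => (e i : Fin n), hrep⟩
    intro i j hij
    have h1 := (hrep i i).mpr rfl
    rw [hij] at h1
    exact (hrep i j).mp h1
  · -- lower bound: the construction
    intro r hr
    by_contra hlt
    push Not at hlt
    have hlt' : r ≤ ∑ i ∈ range t, n.choose i := by omega
    let 𝓖 : Finset (Finset (Fin n)) := univ.filter (fun S => (flip S).card < t)
    have hG : 𝓖.card = ∑ i ∈ range t, n.choose i := by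
      rw [← card_small]
      refine Finset.card_bij (fun S _ => flip S) ?_ ?_ ?_
      · intro S hS
        simp only [𝓖, mem_filter, mem_univ, true_and] at hS
        simp only [mem_filter, mem_univ, true_and]
        exact hS
      · intro S _ S' _ h
        rw [← flip_flip S, ← flip_flip S', h]
      · intro S hS
        simp only [mem_filter, mem_univ, true_and] at hS
        refine ⟨flip S, ?_, flip_flip S⟩
        simp only [𝓖, mem_filter, mem_univ, true_and]
        rw [flip_flip]
        exact hS
    obtain ⟨F, -, hF, x, hx⟩ := hr 𝓖 (by rw [hG]; exact hlt')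
    have hxinj : Function.Injective x := by
      intro i j hij
      have h1 := (hx i i).mpr rfl
      rw [hij] at h1
      exact ((hx j i).mp h1).symm
    have : Nonempty (Fin t) := ⟨⟨0, by omega⟩⟩
    obtain ⟨i0, -, hi0⟩ := Finset.exists_min_image (univ : Finset (Fin t)) x univ_nonempty
    have hmem : x i0 ∈ F i0 := (hx i0 i0).mpr rfl
    obtain ⟨m, hm, hmin⟩ := Finset.exists_min_image (F i0) id ⟨_, hmem⟩
    simp only [id] at hmin
    have hsub : insert m ((univ.erase i0).image x) ⊆ flip (F i0) := by
      intro z hz
      rw [mem_insert, mem_image] at hz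
      simp only [flip, mem_filter, mem_univ, true_and]
      rcases hz with rfl | ⟨j, hj, rfl⟩
      · left; exact ⟨hm, hmin⟩
      · right
        rw [mem_erase] at hj
        refine ⟨fun h => hj.1 ((hx j i0).mp h), x i0, hmem, ?_⟩
        exact lt_of_le_of_ne (hi0 j (mem_univ _)) (fun h => hj.1 (hxinj h).symm)
    have hnot : m ∉ (univ.erase i0).image x := by
      intro h
      rw [mem_image] at h
      obtain ⟨j, hj, rfl⟩ := h
      rw [mem_erase] at hj
      exact hj.1 ((hx j i0).mp hm)
    have hc := card_le_card hsub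
    rw [card_insert_of_notMem hnot, card_image_of_injective _ hxinj,
      card_erase_of_mem (mem_univ _), card_univ, Fintype.card_fin] at hc
    have hF0 := hF i0
    simp only [𝓖, mem_filter, mem_univ, true_and] at hF0
    omega

end Pool.Agent.Results.MP_4beb09_co.ExactValue
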